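import Pool.Agent.H20.T4.Stm
import Pool.Agent.H9.TC.NCom

/-!
Project TM4 (MP_b6022c_nt), row (N4): direction of the lowest window for the slopes of a quartic
polynomial.
-/

set_option autoImplicit false

namespace Pool.Agent.H20.T4

open Finset Pool.Agent.H9.TC Pool.Agent.H20.TM

theorem n4q_nn_le {y : ℝ} (h : |y| ≤ 1 / 2) : |y| ≤ nn y := by
  unfold nn
  by_cases hz : round y = 0
  · rw [hz]
    simp
  · have h1 : (1 : ℝ) ≤ |(round y : ℝ)| := by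
      have h2 : (1 : ℤ) ≤ |round y| := Int.one_le_abs hz
      exact_mod_cast h2
    have h3 : |(round y : ℝ)| ≤ |y - round y| + |y| := by
      have h4 : (round y : ℝ) = -(y - round y) + y := by ring
      calc |(round y : ℝ)| = |-(y - round y) + y| := by rw [← h4]
        _ ≤ |-(y - round y)| + |y| := abs_add_le _ _
        _ = _ := by rw [abs_neg]
    linarith

/-- Lower bound for the distance to the nearest integer, size only. -/
theorem n4q_nn {y z : ℤ} {u w : ℕ} (h : |y| ≤ 2 ^ u) (hz : 2 ^ w ≤ |y|) (hz' : z = y) :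
    (2 : ℝ) ^ w / 2 ^ (u + 1) ≤ nn ((z : ℝ) / 2 ^ (u + 1)) := by
  subst hz'
  have h1 : |(z : ℝ) / 2 ^ (u + 1)| = |(z : ℝ)| / 2 ^ (u + 1) := by
    rw [abs_div, abs_of_pos (by positivity : (0 : ℝ) < 2 ^ (u + 1))]
  have h2 : |(z : ℝ)| ≤ 2 ^ u := by exact_mod_cast h
  have h3 : (2 : ℝ) ^ w ≤ |(z : ℝ)| := by exact_mod_cast hz
  refine le_trans ?_ (n4q_nn_le ?_)
  · rw [h1]
    exact div_le_div_of_nonneg_right h3 (by positivity)
  · rw [h1, div_le_iff₀ (by positivity), pow_succ]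
    linarith

theorem n4 (hw : W3Stmt) (h0 : M0Stmt) (hg : GStmt) : N4Stmt := by
  intro q c L g9 hq hc hL
  refine ⟨(4 * 4 ^ (L + g9) + 1) * (4 * 2 ^ (L + g9)) * (1 + 3 + q),
    c + 2 * (L + g9) + 20, ?_⟩
  intro p hp v1 uf a huf ha d e f
  have e1 : (12 * q + 12) * p = 12 * (q * p) + 12 * p := by ring
  have e3 : (2 * q + 2) * p = 2 * (q * p) + 2 * p := by ring
  have e4 : p ≤ q * p := Nat.le_mul_of_pos_left _ hq
  apply ncom h0 hg q 0 (Nat.zero_le _) hq (∅ : Finset (Fin q)) 1 1 L g9 3 (by norm_num) p uf a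
    le_rfl le_rfl (by norm_num) (by omega) hL
  · rw [Finset.card_empty, pow_zero]
    exact pow_le_one₀ (by norm_num) (by norm_num)
  · rw [Finset.card_empty]
    simp only [Nat.cast_zero, zero_mul, zero_div]
    positivity
  · intro K hK hKL t ht htT b hb
    have hK2 := nK L g9 K hK
    have hK0 : K ≠ 0 := by
      rintro rfl
      exact hKL (dvd_zero _)
    obtain ⟨E, hE⟩ : ∃ E, uf + L = E + 1 := ⟨uf + L - 1, by omega⟩
    have hph : ∀ n : ℕ, (t : ℝ) * ((∑ i ∈ (∅ : Finset (Fin q)), (b i : ℝ) *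
        (((fun _ _ => 0 : ℕ → Fin q → ℤ) n i : ℤ) : ℝ)) / 2 ^ 1 +
        (K : ℝ) * (((2 : ℤ) ^ v1 * dqua c d e f n : ℤ) : ℝ) / 2 ^ (uf + L)) =
        (((4 * c * t * K * 2 ^ v1 : ℤ) : ℝ) / 2 ^ (uf + L)) * (n : ℝ) ^ 3 +
        (((3 * d * t * K * 2 ^ v1 : ℤ) : ℝ) / 2 ^ (uf + L)) * (n : ℝ) ^ 2 +
        (((2 * e * t * K * 2 ^ v1 : ℤ) : ℝ) / 2 ^ (uf + L)) * n +
        (((f * t * K * 2 ^ v1 : ℤ) : ℝ) / 2 ^ (uf + L)) := by
      intro n
      unfold dqua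
      rw [Finset.sum_empty]
      push_cast
      ring
    have hsum : ∑ n ∈ range (2 ^ a), ee ((t : ℝ) * ((∑ i ∈ (∅ : Finset (Fin q)), (b i : ℝ) *
        (((fun _ _ => 0 : ℕ → Fin q → ℤ) n i : ℤ) : ℝ)) / 2 ^ 1 +
        (K : ℝ) * (((2 : ℤ) ^ v1 * dqua c d e f n : ℤ) : ℝ) / 2 ^ (uf + L))) =
        ∑ n ∈ range (2 ^ a), ee ((((4 * c * t * K * 2 ^ v1 : ℤ) : ℝ) / 2 ^ (uf + L)) *
          (n : ℝ) ^ 3 + (((3 * d * t * K * 2 ^ v1 : ℤ) : ℝ) / 2 ^ (uf + L)) * (n : ℝ) ^ 2 +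
          (((2 * e * t * K * 2 ^ v1 : ℤ) : ℝ) / 2 ^ (uf + L)) * n +
          (((f * t * K * 2 ^ v1 : ℤ) : ℝ) / 2 ^ (uf + L))) :=
      Finset.sum_congr rfl fun n _ => by rw [hph n]
    rw [hsum]
    have hc1 : (1 : ℤ) ≤ |(24 * c : ℤ)| := by
      have : (1 : ℤ) ≤ c := by exact_mod_cast hc
      rw [abs_of_nonneg (by positivity)]
      linarith
    have hc2 : |(24 * c : ℤ)| ≤ 2 ^ (5 + c) := by
      have h2 : (c : ℤ) < 2 ^ c := by exact_mod_cast Nat.lt_two_pow_self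
      rw [abs_of_nonneg (by positivity), pow_add]
      have h3 : (0 : ℤ) < 2 ^ c := by positivity
      nlinarith
    have key := hw (((4 * c * t * K * 2 ^ v1 : ℤ) : ℝ) / 2 ^ (uf + L))
      (((3 * d * t * K * 2 ^ v1 : ℤ) : ℝ) / 2 ^ (uf + L))
      (((2 * e * t * K * 2 ^ v1 : ℤ) : ℝ) / 2 ^ (uf + L))
      (((f * t * K * 2 ^ v1 : ℤ) : ℝ) / 2 ^ (uf + L)) (2 ^ a) (2 ^ (4 * p)) 1
      (2 ^ v1 / 2 ^ (uf + L)) Nat.one_le_two_pow Nat.one_le_two_pow le_rfl (by positivity)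
      (by
        intro k1 k2 hk1 hk1' hk2 hk2'
        have h1 : 6 * (k1 : ℝ) * k2 * (((4 * c * t * K * 2 ^ v1 : ℤ) : ℝ) / 2 ^ (uf + L)) =
            ((24 * c * t * K * k1 * k2 * 2 ^ v1 : ℤ) : ℝ) / 2 ^ (uf + L) := by
          push_cast
          ring
        rw [h1, hE]
        have hk1r : (1 : ℤ) ≤ (k1 : ℤ) := by exact_mod_cast hk1
        have hk2r : (1 : ℤ) ≤ (k2 : ℤ) := by exact_mod_cast hk2
        have hk1s : (k1 : ℤ) ≤ 2 ^ (4 * p) := by exact_mod_cast hk1'.le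
        have hk2s : (k2 : ℤ) ≤ 2 ^ (4 * p) := by exact_mod_cast hk2'.le
        have ht1 : (1 : ℤ) ≤ |t| := Int.one_le_abs ht
        have hK1 : (1 : ℤ) ≤ |K| := Int.one_le_abs hK0
        have habs : |(24 * c * t * K * k1 * k2 * 2 ^ v1 : ℤ)| =
            |(24 * c : ℤ)| * |t| * |K| * k1 * k2 * 2 ^ v1 := by
          rw [abs_mul, abs_mul, abs_mul, abs_mul, abs_mul, Nat.abs_cast, Nat.abs_cast,
            abs_of_nonneg (by positivity : (0 : ℤ) ≤ 2 ^ v1)]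
        apply n4q_nn _ _ rfl
        · rw [habs]
          calc |(24 * c : ℤ)| * |t| * |K| * k1 * k2 * 2 ^ v1
              ≤ 2 ^ (5 + c) * 2 ^ ((2 * q + 2) * p) * 2 ^ (2 * (L + g9) + 1) * 2 ^ (4 * p) *
                2 ^ (4 * p) * 2 ^ v1 := by gcongr
            _ = 2 ^ (5 + c + (2 * q + 2) * p + (2 * (L + g9) + 1) + 4 * p + 4 * p + v1) := by
                rw [← pow_add, ← pow_add, ← pow_add, ← pow_add, ← pow_add]
            _ ≤ 2 ^ E := pow_le_pow_right₀ (by norm_num) (by omega)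
        · rw [habs]
          calc (2 : ℤ) ^ v1 = 1 * 1 * 1 * 1 * 1 * 2 ^ v1 := by ring
            _ ≤ |(24 * c : ℤ)| * |t| * |K| * k1 * k2 * 2 ^ v1 := by gcongr)
      (2 ^ a) le_rfl
    have hpw : ∀ i j : ℕ, i + j ≤ a → (2 : ℝ) ^ i / 2 ^ a ≤ (1 / 2) ^ j := by
      intro i j hij
      rw [div_le_iff₀ (by positivity), one_div, inv_pow, inv_mul_eq_div,
        le_div_iff₀ (by positivity), ← pow_add]
      exact pow_le_pow_right₀ (by norm_num) hij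
    have f1 : 1 / ((2 : ℝ) ^ v1 / 2 ^ (uf + L) * ((2 ^ a : ℕ) : ℝ)) ≤ (1 / 2) ^ (4 * p) := by
      have g1 : 1 / ((2 : ℝ) ^ v1 / 2 ^ (uf + L) * ((2 ^ a : ℕ) : ℝ)) =
          2 ^ (uf + L - v1) / 2 ^ a := by
        obtain ⟨x, hx⟩ := Nat.exists_eq_add_of_le (show v1 ≤ uf + L by omega)
        rw [hx, Nat.add_sub_cancel_left, pow_add]
        push_cast
        field_simp
      rw [g1]
      exact hpw _ _ (by omega)
    have f2 : 6 * ((1 : ℕ) : ℝ) / ((2 ^ (4 * p) : ℕ) : ℝ) = 6 * (1 / 2) ^ (4 * p) := by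
      push_cast
      rw [one_div (2 : ℝ), inv_pow]
      field_simp
    have f3 : ((2 ^ (4 * p) : ℕ) : ℝ) / ((2 ^ a : ℕ) : ℝ) ≤ (1 / 2) ^ (4 * p) := by
      push_cast
      exact hpw _ _ (by omega)
    have f4 : (0 : ℝ) ≤ (1 / 2) ^ (4 * p) := by positivity
    refine le_of_pow_le_pow_left₀ (n := 4) (by norm_num) (by positivity) (key.trans ?_)
    have e5 : (3 * (1 / 2 : ℝ) ^ ((2 * 0 + 1) * p) * 2 ^ a) ^ 4 =
        ((2 ^ a : ℕ) : ℝ) ^ 4 * (81 * (1 / 2) ^ (4 * p)) := by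
      rw [mul_pow, mul_pow, ← pow_mul (1 / 2 : ℝ)]
      push_cast
      rw [show (2 * 0 + 1) * p * 4 = 4 * p by ring]
      norm_num
      ring
    rw [e5]
    refine mul_le_mul_of_nonneg_left ?_ (by positivity)
    rw [f2]
    linarith

end Pool.Agent.H20.T4
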